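import Pool.Agent.V11178.Signed

/-!
# The cyclic groups with `τ±(ℤ_n, [1, t]) = 1`, `t` odd
-/

set_option autoImplicit false

open Finset

namespace Pool.Agent.Results.MP_c28122_co.Classification

open Pool.Agent.V11178

/-- `a, b` satisfy no nontrivial relation of weight at most `t`. -/
def Pair (n t : ℕ) (a b : ZMod n) : Prop :=
  ∀ x y : ℤ, x.natAbs + y.natAbs ≤ t → x • a + y • b = 0 → x = 0 ∧ y = 0

/-- The half-square of `2N²` classes. -/
def cell (n : ℕ) (a b : ZMod n) (p : ℕ × ℕ) : ZMod n :=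
  ((((p.1 + 1) / 2 + p.2 : ℕ) : ℤ)) • a + (((p.1 / 2 : ℕ) : ℤ) - (p.2 : ℤ)) • b

theorem cell_inj {n N : ℕ} {a b : ZMod n} (h : Pair n (2 * N - 1) a b) (hN : 1 ≤ N) :
    Set.InjOn (cell n a b) ((range (2 * N) ×ˢ range N : Finset (ℕ × ℕ)) : Set (ℕ × ℕ)) := by
  rintro ⟨u, i⟩ hu ⟨u', i'⟩ hu' he
  rw [mem_coe, mem_product, mem_range, mem_range] at hu hu'
  simp only at hu hu'
  unfold cell at he
  simp only at he
  have h1 : ((((u + 1) / 2 + i : ℕ) : ℤ) - (((u' + 1) / 2 + i' : ℕ) : ℤ)) • a +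
      ((((u / 2 : ℕ) : ℤ) - (i : ℤ)) - (((u' / 2 : ℕ) : ℤ) - (i' : ℤ))) • b = 0 := by
    rw [sub_smul, sub_smul (((u / 2 : ℕ) : ℤ) - (i : ℤ))]
    have : ∀ p q r s : ZMod n, p + q = r + s → p - r + (q - s) = 0 := by
      intro p q r s h
      linear_combination h
    exact this _ _ _ _ he
  have h2 := h _ _ (by omega) h1
  have h3 : u = u' := by omega
  have h4 : i = i' := by omega
  rw [h3, h4]

theorem packing {n N : ℕ} (hn : 0 < n) {a b : ZMod n} (h : Pair n (2 * N - 1) a b) (hN : 1 ≤ N) :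
    2 * N * N ≤ n := by
  have : NeZero n := ⟨hn.ne'⟩
  have h1 := Finset.card_le_univ ((range (2 * N) ×ˢ range N).image (cell n a b))
  rw [Finset.card_image_of_injOn (cell_inj h hN), card_product, card_range, card_range,
    ZMod.card] at h1
  exact h1

/-- The set of classes killed by `M` is small unless `n` divides `M`. -/
theorem torsion_card {n : ℕ} (hn : 0 < n) (M : ℤ) (hM : ¬ (n : ℤ) ∣ M) (S : Finset (ZMod n))
    (hS : ∀ z ∈ S, M • z = 0) : 2 * S.card ≤ n := by
  have : NeZero n := ⟨hn.ne'⟩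
  obtain ⟨d, hd⟩ : ∃ d : ℕ, d = Int.gcd M n := ⟨_, rfl⟩
  have hdn : d ∣ n := by
    rw [hd]; exact Int.natCast_dvd_natCast.mp (Int.gcd_dvd_right _ _)
  obtain ⟨e, he⟩ := hdn
  have hdpos : 0 < d := Nat.pos_of_ne_zero (fun h0 => by rw [h0, zero_mul] at he; omega)
  have he2 : 2 ≤ e := by
    rcases Nat.lt_or_ge e 2 with h | h
    · exfalso
      have : e = 0 ∨ e = 1 := by omega
      rcases this with h0 | h1
      · rw [h0, mul_zero] at he; omega
      · rw [h1, mul_one] at he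
        apply hM
        rw [he, hd]
        exact Int.gcd_dvd_left _ _
    · exact h
  have hds : ∀ z ∈ S, (d : ℤ) • z = 0 := by
    intro z hz
    have hbez := Int.gcd_eq_gcd_ab M n
    rw [← hd] at hbez
    rw [hbez, add_smul, mul_comm M, mul_smul, hS z hz, smul_zero, zero_add, mul_comm, mul_smul]
    have : ((n : ℤ)) • z = 0 := by
      rw [zsmul_eq_mul]; simp
    rw [this, smul_zero]
  have hval : ∀ z ∈ S, z.val = e * (z.val / e) := by
    intro z hz
    have h1 := hds z hz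
    rw [zsmul_eq_mul] at h1
    have h2 : ((d * z.val : ℕ) : ZMod n) = 0 := by
      push_cast
      rw [ZMod.natCast_zmod_val]
      simpa using h1
    rw [ZMod.natCast_eq_zero_iff] at h2
    obtain ⟨w, hw⟩ := h2
    have h4 : n * w = d * (e * w) := by rw [he]; ring
    have h3 : e ∣ z.val := by
      refine ⟨w, Nat.eq_of_mul_eq_mul_left hdpos ?_⟩
      rw [hw, h4]
    exact (Nat.mul_div_cancel' h3).symm
  have hcard : S.card ≤ d := by
    calc S.card ≤ (range d).card := by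
          apply Finset.card_le_card_of_injOn (fun z => z.val / e)
          · intro z _
            rw [mem_coe, mem_range]
            apply Nat.div_lt_of_lt_mul
            rw [mul_comm, ← he]
            exact ZMod.val_lt z
          · intro x hx y hy hxy
            simp only at hxy
            apply ZMod.val_injective
            rw [hval x hx, hval y hy, hxy]
      _ = d := card_range d
  calc 2 * S.card ≤ 2 * d := Nat.mul_le_mul_left _ hcard
    _ ≤ e * d := Nat.mul_le_mul_right _ he2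
    _ = n := by rw [he, mul_comm]

/-- If `n < 2N² + N`, there are short relations of a special shape. -/
theorem exists_right {n N : ℕ} (hn : 0 < n) (hnN : n < 2 * N * N + N) {a b : ZMod n}
    (h : Pair n (2 * N - 1) a b) (hN : 1 ≤ N) :
    ∃ y : ℤ, y.natAbs < N ∧ ((N : ℤ) + y) • a + ((N : ℤ) - y) • b = 0 := by
  have : NeZero n := ⟨hn.ne'⟩
  -- the right column
  have hcol : Set.InjOn (fun i : ℕ => ((N : ℤ) + i) • a + ((N : ℤ) - i) • b) (range N : Set ℕ) := by
    intro i hi i' hi' he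
    rw [mem_coe, mem_range] at hi hi'
    simp only at he
    have h1 : ((i : ℤ) - i') • a + ((i' : ℤ) - i) • b = 0 := by
      simp only [zsmul_eq_mul] at he ⊢
      push_cast at he ⊢
      linear_combination he
    have h2 := h _ _ (by omega) h1
    omega
  by_contra hcon
  push Not at hcon
  have hdisj : Disjoint ((range (2 * N) ×ˢ range N).image (cell n a b))
      ((range N).image (fun i : ℕ => ((N : ℤ) + i) • a + ((N : ℤ) - i) • b)) := by
    rw [Finset.disjoint_left]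
    intro z hz1 hz2
    rw [mem_image] at hz1 hz2
    obtain ⟨⟨u, i⟩, hu, hz1⟩ := hz1
    obtain ⟨i', hi', hz2⟩ := hz2
    rw [mem_product, mem_range, mem_range] at hu
    rw [mem_range] at hi'
    simp only at hu
    rw [← hz1] at hz2
    unfold cell at hz2
    simp only at hz2
    have h1 : ((N : ℤ) + i' - (((u + 1) / 2 + i : ℕ) : ℤ)) • a +
        ((N : ℤ) - i' - (((u / 2 : ℕ) : ℤ) - (i : ℤ))) • b = 0 := by
      simp only [zsmul_eq_mul] at hz2 ⊢
      push_cast at hz2 ⊢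
      linear_combination hz2
    by_cases hu0 : u = 0
    · subst hu0
      have e1 : (N : ℤ) + i' - (((0 + 1) / 2 + i : ℕ) : ℤ) = (N : ℤ) + ((i' : ℤ) - i) := by
        push_cast; norm_num; ring
      have e2 : (N : ℤ) - i' - (((0 / 2 : ℕ) : ℤ) - (i : ℤ)) = (N : ℤ) - ((i' : ℤ) - i) := by
        push_cast; norm_num; ring
      rw [e1, e2] at h1
      exact hcon ((i' : ℤ) - i) (by omega) h1
    · have h2 := h _ _ (by omega) h1
      omega
  have hc := Finset.card_union_of_disjoint hdisj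
  rw [Finset.card_image_of_injOn (cell_inj h hN), Finset.card_image_of_injOn hcol, card_product,
    card_range, card_range] at hc
  have h1 := Finset.card_le_univ (((range (2 * N) ×ˢ range N).image (cell n a b)) ∪
      ((range N).image (fun i : ℕ => ((N : ℤ) + i) • a + ((N : ℤ) - i) • b)))
  rw [hc, ZMod.card] at h1
  omega

theorem pair_neg {n t : ℕ} {a b : ZMod n} (h : Pair n t a b) : Pair n t a (-b) := by
  intro x y hxy he
  have h1 := h x (-y) (by omega) (by rw [← he, smul_neg, neg_smul])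
  omega

theorem two_torsion {n : ℕ} (hn : 0 < n) (g h : ZMod n) (hg : (2 : ℤ) • g = 0)
    (hh : (2 : ℤ) • h = 0) : g = 0 ∨ h = 0 ∨ g = h := by
  have : NeZero n := ⟨hn.ne'⟩
  have key : ∀ z : ZMod n, (2 : ℤ) • z = 0 → z.val = 0 ∨ 2 * z.val = n := by
    intro z hz
    have h2 : ((2 * z.val : ℕ) : ZMod n) = 0 := by
      push_cast
      rw [ZMod.natCast_zmod_val]
      simpa [zsmul_eq_mul] using hz
    rw [ZMod.natCast_eq_zero_iff] at h2
    obtain ⟨w, hw⟩ := h2
    have hlt := ZMod.val_lt z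
    have hw2 : w < 2 := by
      by_contra hcon
      have : n * 2 ≤ n * w := Nat.mul_le_mul_left _ (by omega)
      omega
    have : w = 0 ∨ w = 1 := by omega
    rcases this with rfl | rfl
    · left; omega
    · right; omega
  rcases key g hg with h1 | h1
  · left; exact (ZMod.val_eq_zero g).mp h1
  · rcases key h hh with h2 | h2
    · right; left; exact (ZMod.val_eq_zero h).mp h2
    · right; right
      apply ZMod.val_injective
      omega

/-- The exceptional groups have no independent pair. -/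
theorem no_pair {n N j : ℕ} (hN : 2 ≤ N) (hj : 0 < j) (hjN : j < N) (hn : n = 2 * N * N + j)
    (hexc : (N % 2 = 0 ∧ j % 2 = 1) ∨ (N % 2 = 1 ∧ ¬ 4 ∣ j)) (a b : ZMod n)
    (h : Pair n (2 * N - 1) a b) : False := by
  have hn0 : 0 < n := by omega
  obtain ⟨y, hy, e1⟩ := exists_right hn0 (by omega) h (by omega)
  obtain ⟨x, hx, e2⟩ := exists_right hn0 (by omega) (pair_neg h) (by omega)
  have e2' : ((N : ℤ) + x) • a + (x - (N : ℤ)) • b = 0 := by
    rw [← e2]
    simp only [zsmul_eq_mul]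
    push_cast
    ring
  obtain ⟨M, hM⟩ : ∃ M : ℤ, M = 2 * (N : ℤ) * N - 2 * x * y := ⟨_, rfl⟩
  have hMa : M • a = 0 := by
    simp only [zsmul_eq_mul] at e1 e2' ⊢
    rw [hM]
    push_cast at e1 e2' ⊢
    linear_combination ((N : ZMod n) - x) * e1 + ((N : ZMod n) - y) * e2'
  have hMb : M • b = 0 := by
    simp only [zsmul_eq_mul] at e1 e2' ⊢
    rw [hM]
    push_cast at e1 e2' ⊢
    linear_combination ((N : ZMod n) + x) * e1 - ((N : ZMod n) + y) * e2'
  have hdvd : (n : ℤ) ∣ M := by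
    by_contra hcon
    have h1 := torsion_card hn0 M hcon ((range (2 * N) ×ˢ range N).image (cell n a b)) (by
      intro z hz
      rw [mem_image] at hz
      obtain ⟨p, -, rfl⟩ := hz
      unfold cell
      rw [smul_add, smul_comm M, smul_comm M, hMa, hMb, smul_zero, smul_zero, add_zero])
    rw [Finset.card_image_of_injOn (cell_inj h (by omega)), card_product, card_range,
      card_range] at h1
    nlinarith
  have hx' : -((N : ℤ) - 1) ≤ x ∧ x ≤ (N : ℤ) - 1 := by omega
  have hy' : -((N : ℤ) - 1) ≤ y ∧ y ≤ (N : ℤ) - 1 := by omega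
  have hxy1 : x * y ≤ ((N : ℤ) - 1) * ((N : ℤ) - 1) := by nlinarith
  have hxy2 : -(((N : ℤ) - 1) * ((N : ℤ) - 1)) ≤ x * y := by nlinarith
  have hnz : (n : ℤ) = 2 * (N : ℤ) * N + j := by rw [hn]; push_cast; ring
  have hN2 : (2 : ℤ) ≤ N := by exact_mod_cast hN
  have hMn : M = n := by
    obtain ⟨w, hw⟩ := hdvd
    have hj0 : (0 : ℤ) ≤ j := by positivity
    have hM0 : 0 < M := by rw [hM]; nlinarith
    have hM1 : M < 2 * n := by rw [hM, hnz]; nlinarith
    have hnpos : (0 : ℤ) < n := by exact_mod_cast hn0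
    have hw0 : 0 < w := by
      by_contra hcon
      have : (n : ℤ) * w ≤ 0 := mul_nonpos_of_nonneg_of_nonpos hnpos.le (by omega)
      omega
    have hw1 : w < 2 := by
      by_contra hcon
      have : (n : ℤ) * 2 ≤ n * w := mul_le_mul_of_nonneg_left (by omega) hnpos.le
      omega
    have : w = 1 := by omega
    rw [hw, this, mul_one]
  have hjxy : (j : ℤ) = -(2 * (x * y)) := by
    rw [hM, hnz] at hMn
    linarith
  rcases hexc with ⟨-, hodd⟩ | ⟨hNodd, hj4⟩
  · omega
  · have hxyodd : (x * y) % 2 = 1 := by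
      by_contra hcon
      apply hj4
      have h2 : (x * y) % 2 = 0 := by omega
      have : (4 : ℤ) ∣ j := by omega
      exact_mod_cast this
    have hxo : x % 2 = 1 := by
      by_contra hcon
      have h0 : x % 2 = 0 := by omega
      rw [Int.mul_emod, h0] at hxyodd
      simp at hxyodd
    have hyo : y % 2 = 1 := by
      by_contra hcon
      have h0 : y % 2 = 0 := by omega
      rw [Int.mul_emod, h0] at hxyodd
      simp at hxyodd
    obtain ⟨p1, hp1⟩ : ∃ p1 : ℤ, (N : ℤ) + y = 2 * p1 := ⟨((N : ℤ) + y) / 2, by omega⟩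
    obtain ⟨p2, hp2⟩ : ∃ p2 : ℤ, (N : ℤ) - y = 2 * p2 := ⟨((N : ℤ) - y) / 2, by omega⟩
    obtain ⟨q1, hq1⟩ : ∃ q1 : ℤ, (N : ℤ) + x = 2 * q1 := ⟨((N : ℤ) + x) / 2, by omega⟩
    obtain ⟨q2, hq2⟩ : ∃ q2 : ℤ, x - (N : ℤ) = 2 * q2 := ⟨(x - (N : ℤ)) / 2, by omega⟩
    have t1 : (2 : ℤ) • (p1 • a + p2 • b) = 0 := by
      rw [smul_add, smul_smul, smul_smul, ← hp1, ← hp2]; exact e1
    have t2 : (2 : ℤ) • (q1 • a + q2 • b) = 0 := by
      rw [smul_add, smul_smul, smul_smul, ← hq1, ← hq2]; exact e2'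
    rcases two_torsion hn0 _ _ t1 t2 with h3 | h3 | h3
    · have := h p1 p2 (by omega) h3
      omega
    · have := h q1 q2 (by omega) h3
      omega
    · have h4 : (p1 - q1) • a + (p2 - q2) • b = 0 := by
        rw [sub_smul, sub_smul]
        have : ∀ p q r s : ZMod n, p + q = r + s → p - r + (q - s) = 0 := by
          intro p q r s h
          linear_combination h
        exact this _ _ _ _ h3
      have := h _ _ (by omega) h4
      omega

/-- A relation between integers of bounded size. -/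
theorem dvd_of_rel {n : ℕ} (u v x y : ℤ) (h : x • (u : ZMod n) + y • (v : ZMod n) = 0) :
    (n : ℤ) ∣ x * u + y * v := by
  rw [← ZMod.intCast_zmod_eq_zero_iff_dvd]
  simp only [zsmul_eq_mul] at h
  push_cast
  exact h

theorem pair_large {n N : ℕ} (hN : 2 ≤ N) (hn : 2 * N * N + N ≤ n) :
    Pair n (2 * N - 1) ((N : ℤ) : ZMod n) (((N : ℤ) + 1 : ℤ) : ZMod n) := by
  intro x y hxy he
  have hd := dvd_of_rel _ _ _ _ he
  obtain ⟨s, hs⟩ : ∃ s, s = x + y := ⟨_, rfl⟩
  have hV : x * (N : ℤ) + y * ((N : ℤ) + 1) = (N : ℤ) * s + y := by rw [hs]; ring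
  rw [hV] at hd
  have hs1 : -(2 * (N : ℤ) - 1) ≤ s ∧ s ≤ 2 * (N : ℤ) - 1 := by omega
  have hy1 : -(2 * (N : ℤ) - 1) ≤ y ∧ y ≤ 2 * (N : ℤ) - 1 := by omega
  have hnz : 2 * (N : ℤ) * N + N ≤ n := by exact_mod_cast hn
  have hN2 : (2 : ℤ) ≤ N := by exact_mod_cast hN
  have habs : |(N : ℤ) * s + y| < n := by
    rw [abs_lt]
    constructor <;> nlinarith
  have h0 := Int.eq_zero_of_abs_lt_dvd hd habs
  have hs0 : s = 0 := by
    rcases lt_trichotomy s 0 with h1 | h1 | h1
    · exfalso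
      have h2 : (N : ℤ) * s ≤ -N := by nlinarith
      omega
    · exact h1
    · exfalso
      have h2 : (N : ℤ) ≤ N * s := by nlinarith
      omega
  rw [hs0] at h0
  omega

theorem pair_even {n N : ℕ} (hN : 2 ≤ N) (hNe : N % 2 = 0) (hne : n % 2 = 0)
    (hn : 2 * N * N ≤ n) :
    Pair n (2 * N - 1) (((N : ℤ) - 1 : ℤ) : ZMod n) (((N : ℤ) + 1 : ℤ) : ZMod n) := by
  intro x y hxy he
  have hd := dvd_of_rel _ _ _ _ he
  obtain ⟨p, hp⟩ : ∃ p, p = x + y := ⟨_, rfl⟩
  obtain ⟨q, hq⟩ : ∃ q, q = y - x := ⟨_, rfl⟩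
  have hV : x * ((N : ℤ) - 1) + y * ((N : ℤ) + 1) = (N : ℤ) * p + q := by rw [hp, hq]; ring
  rw [hV] at hd
  obtain ⟨r, hr⟩ : ∃ r : ℤ, (N : ℤ) = 2 * r := ⟨(N : ℤ) / 2, by omega⟩
  obtain ⟨m, hm⟩ : ∃ m : ℤ, (n : ℤ) = 2 * m := ⟨(n : ℤ) / 2, by omega⟩
  have hqe : q % 2 = 0 := by
    obtain ⟨w, hw⟩ := hd
    rw [hm, hr] at hw
    have : q = 2 * (m * w - r * p) := by linarith
    omega
  have hnz : 2 * (N : ℤ) * N ≤ n := by exact_mod_cast hn
  have hN2 : (2 : ℤ) ≤ N := by exact_mod_cast hN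
  have hp1 : -(2 * (N : ℤ) - 2) ≤ p ∧ p ≤ 2 * (N : ℤ) - 2 := by omega
  have hq1 : -(2 * (N : ℤ) - 2) ≤ q ∧ q ≤ 2 * (N : ℤ) - 2 := by omega
  have habs : |(N : ℤ) * p + q| < n := by
    rw [abs_lt]
    constructor <;> nlinarith
  have h0 := Int.eq_zero_of_abs_lt_dvd hd habs
  have hp0 : p = 0 := by
    rcases lt_trichotomy p 0 with h1 | h1 | h1
    · exfalso
      have h2 : (N : ℤ) * p ≤ (N : ℤ) * (-2) := mul_le_mul_of_nonneg_left (by omega) (by omega)
      omega
    · exact h1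
    · exfalso
      have h2 : (N : ℤ) * 2 ≤ (N : ℤ) * p := mul_le_mul_of_nonneg_left (by omega) (by omega)
      omega
  rw [hp0] at h0
  omega

theorem pair_odd {n N : ℕ} (hN : 2 ≤ N) (hNo : N % 2 = 1) (hne : n % 4 = 2)
    (hn : 2 * N * N ≤ n) :
    Pair n (2 * N - 1) (((N : ℤ) - 2 : ℤ) : ZMod n) (((N : ℤ) + 2 : ℤ) : ZMod n) := by
  intro x y hxy he
  have hd := dvd_of_rel _ _ _ _ he
  obtain ⟨p, hp⟩ : ∃ p, p = x + y := ⟨_, rfl⟩
  obtain ⟨q, hq⟩ : ∃ q, q = y - x := ⟨_, rfl⟩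
  have hV : x * ((N : ℤ) - 2) + y * ((N : ℤ) + 2) = (N : ℤ) * p + 2 * q := by rw [hp, hq]; ring
  rw [hV] at hd
  obtain ⟨r, hr⟩ : ∃ r : ℤ, (N : ℤ) = 2 * r + 1 := ⟨(N : ℤ) / 2, by omega⟩
  obtain ⟨m, hm⟩ : ∃ m : ℤ, (n : ℤ) = 4 * m + 2 := ⟨(n : ℤ) / 4, by omega⟩
  have hN3 : (3 : ℤ) ≤ N := by omega
  have hnz : 2 * (N : ℤ) * N ≤ n := by exact_mod_cast hn
  have hpe : p % 2 = 0 := by
    obtain ⟨w, hw⟩ := hd
    rw [hm, hr] at hw
    have : p = 2 * ((2 * m + 1) * w - q - r * p) := by linarith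
    omega
  have hqe : q % 2 = 0 := by omega
  have hp1 : -(2 * (N : ℤ) - 2) ≤ p ∧ p ≤ 2 * (N : ℤ) - 2 := by omega
  have hq1 : -(2 * (N : ℤ) - 2) ≤ q ∧ q ≤ 2 * (N : ℤ) - 2 := by omega
  obtain ⟨w, hw⟩ := hd
  have hw1 : -1 ≤ w ∧ w ≤ 1 := by
    constructor
    · by_contra hcon
      have : (n : ℤ) * w ≤ n * (-2) := mul_le_mul_of_nonneg_left (by omega) (by positivity)
      nlinarith
    · by_contra hcon
      have : (n : ℤ) * 2 ≤ n * w := mul_le_mul_of_nonneg_left (by omega) (by positivity)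
      nlinarith
  have hw2 : w = -1 ∨ w = 0 ∨ w = 1 := by omega
  obtain ⟨p', hp'⟩ : ∃ p', p = 2 * p' := ⟨p / 2, by omega⟩
  obtain ⟨q', hq'⟩ : ∃ q', q = 2 * q' := ⟨q / 2, by omega⟩
  rcases hw2 with rfl | rfl | rfl
  · exfalso
    have h1 : 2 * (2 * (r * p') + p' + 2 * q' + (2 * m + 1)) = 0 := by
      rw [hr, hm, hp', hq'] at hw
      linarith
    have h2 : p' % 2 = 1 := by omega
    have h3 : -(2 * (N : ℤ) - 4) ≤ p ∧ p ≤ 2 * (N : ℤ) - 4 := by omega
    nlinarith
  · have hw0 : (N : ℤ) * p + 2 * q = 0 := by rw [hw, mul_zero]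
    have hp0 : p = 0 := by
      rcases lt_trichotomy p 0 with h1 | h1 | h1
      · exfalso
        have h5 : p = -2 := by
          by_contra hcon
          have h2 : (N : ℤ) * p ≤ (N : ℤ) * (-4) :=
            mul_le_mul_of_nonneg_left (by omega) (by omega)
          omega
        rw [h5] at hw0
        omega
      · exact h1
      · exfalso
        have h5 : p = 2 := by
          by_contra hcon
          have h2 : (N : ℤ) * 4 ≤ (N : ℤ) * p :=
            mul_le_mul_of_nonneg_left (by omega) (by omega)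
          omega
        rw [h5] at hw0
        omega
    rw [hp0] at hw0
    omega
  · exfalso
    have h1 : 2 * (2 * (r * p') + p' + 2 * q' - (2 * m + 1)) = 0 := by
      rw [hr, hm, hp', hq'] at hw
      linarith
    have h2 : p' % 2 = 1 := by omega
    have h3 : -(2 * (N : ℤ) - 4) ≤ p ∧ p ≤ 2 * (N : ℤ) - 4 := by omega
    nlinarith

theorem two_le_tau_iff {n t : ℕ} (hn : 0 < n) (ht : 2 ≤ t) :
    2 ≤ tauPM (ZMod n) t ↔ ∃ a b : ZMod n, Pair n t a b := by
  have : NeZero n := ⟨hn.ne'⟩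
  constructor
  · intro h
    obtain ⟨A, hA, hind⟩ := exists_tauPM (G := ZMod n) t
    obtain ⟨B, hB, hBc⟩ := Finset.exists_subset_card_eq (n := 2) (s := A) (by omega)
    have hBi := hind.subset hB
    obtain ⟨a, b, hab, rfl⟩ := Finset.card_eq_two.mp hBc
    refine ⟨a, b, ?_⟩
    intro x y hxy he
    rw [tIndep_iff] at hBi
    by_contra hcon
    have h1 := hBi (fun g => if g = a then x else y)
    rw [Finset.sum_pair hab, Finset.sum_pair hab] at h1
    simp only [if_true, hab.symm, if_false] at h1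
    exact h1 (by omega) hxy he
  · rintro ⟨a, b, h⟩
    have hab : a ≠ b := by
      rintro rfl
      have := h 1 (-1) (by simpa using ht) (by simp)
      omega
    have hi : TIndep t ({a, b} : Finset (ZMod n)) := by
      rw [tIndep_iff]
      intro c h1 h2 h3
      rw [Finset.sum_pair hab] at h1 h2 h3
      have := h _ _ h2 h3
      rw [this.1, this.2] at h1
      simp at h1
    have := le_tauPM hi
    rw [Finset.card_pair hab] at this
    exact this

theorem one_le_tau_iff {n t : ℕ} (hn : 0 < n) : 1 ≤ tauPM (ZMod n) t ↔ t + 1 ≤ n := by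
  have : NeZero n := ⟨hn.ne'⟩
  constructor
  · intro h
    obtain ⟨A, hA, hind⟩ := exists_tauPM (G := ZMod n) t
    obtain ⟨B, hB, hBc⟩ := Finset.exists_subset_card_eq (n := 1) (s := A) (by omega)
    have hBi := hind.subset hB
    obtain ⟨a, rfl⟩ := Finset.card_eq_one.mp hBc
    rw [tIndep_iff] at hBi
    by_contra hcon
    refine hBi (fun _ => (n : ℤ)) ?_ ?_ ?_
    · rw [Finset.sum_singleton, Int.natAbs_natCast]; omega
    · rw [Finset.sum_singleton]
      simp only [Int.natAbs_natCast]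
      omega
    · rw [Finset.sum_singleton, zsmul_eq_mul]
      simp
  · intro h
    have hi : TIndep t ({1} : Finset (ZMod n)) := by
      rw [tIndep_iff]
      intro c h1 h2 h3
      rw [Finset.sum_singleton] at h1 h2 h3
      rw [zsmul_eq_mul, mul_one, ZMod.intCast_zmod_eq_zero_iff_dvd] at h3
      have h4 := Int.natAbs_dvd_natAbs.mpr h3
      rw [Int.natAbs_natCast] at h4
      have := Nat.le_of_dvd (by omega) h4
      omega
    have := le_tauPM hi
    rwa [Finset.card_singleton] at this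

/-- For odd `t ≥ 3`, with `b_t = ⌊t²/2⌋ + t`, the positive integers `n` with
`τ±(ℤ_n, [1, t]) = 1` are exactly the `n` with `t + 1 ≤ n ≤ b_t` and the
`n = b_t + 1 + j` with `0 < j < (t + 1)/2` and, if `t ≡ 3 mod 4`, `j` odd, and, if `t ≡ 1 mod 4`,
`4 ∤ j`. -/
theorem result (t n : ℕ) (ht : 3 ≤ t) (hodd : Odd t) (hn : 0 < n) :
    tauPM (ZMod n) t = 1 ↔
      (t + 1 ≤ n ∧ n ≤ t ^ 2 / 2 + t) ∨
      ∃ j : ℕ, n = t ^ 2 / 2 + t + 1 + j ∧ 0 < j ∧ j < (t + 1) / 2 ∧
        ((t % 4 = 3 ∧ Odd j) ∨ (t % 4 = 1 ∧ ¬ 4 ∣ j)) := by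
  obtain ⟨N, hN⟩ : ∃ N, t = 2 * N - 1 := ⟨(t + 1) / 2, by obtain ⟨r, hr⟩ := hodd; omega⟩
  have hN2 : 2 ≤ N := by omega
  have hb : t ^ 2 / 2 + t + 1 = 2 * N * N := by
    obtain ⟨M, rfl⟩ : ∃ M, N = M + 1 := ⟨N - 1, by omega⟩
    have h1 : t = 2 * M + 1 := by omega
    rw [h1]
    have h2 : (2 * M + 1) ^ 2 = 2 * (2 * M * M + 2 * M) + 1 := by ring
    rw [h2]
    have h3 : (2 * (2 * M * M + 2 * M) + 1) / 2 = 2 * M * M + 2 * M := by omega
    rw [h3]
    ring
  have h12 : tauPM (ZMod n) t = 1 ↔ t + 1 ≤ n ∧ ¬ ∃ a b : ZMod n, Pair n t a b := by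
    rw [← one_le_tau_iff hn, ← two_le_tau_iff hn (by omega)]
    omega
  rw [h12]
  constructor
  · rintro ⟨h1, h2⟩
    by_cases h3 : n ≤ t ^ 2 / 2 + t
    · left; exact ⟨h1, h3⟩
    · right
      refine ⟨n - (t ^ 2 / 2 + t + 1), by omega, ?_, ?_, ?_⟩
      · -- `j ≠ 0`
        by_contra hcon
        have hn' : n = 2 * N * N := by omega
        apply h2
        rcases Nat.mod_two_eq_zero_or_one N with h4 | h4
        · refine ⟨_, _, hN ▸ pair_even hN2 h4 ?_ hn'.ge⟩
          rw [hn', mul_assoc]; omega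
        · refine ⟨_, _, hN ▸ pair_odd hN2 h4 ?_ hn'.ge⟩
          rw [hn']
          obtain ⟨r, hr⟩ : ∃ r, N = 2 * r + 1 := ⟨N / 2, by omega⟩
          rw [hr]
          have : 2 * (2 * r + 1) * (2 * r + 1) = 4 * (2 * r * r + 2 * r) + 2 := by ring
          omega
      · by_contra hcon
        apply h2
        exact ⟨_, _, hN ▸ pair_large hN2 (by omega)⟩
      · obtain ⟨j, hj⟩ : ∃ j, j = n - (t ^ 2 / 2 + t + 1) := ⟨_, rfl⟩
        rw [← hj]
        have hn' : n = 2 * N * N + j := by omega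
        by_contra hcon
        push Not at hcon
        apply h2
        rcases Nat.mod_two_eq_zero_or_one N with h4 | h4
        · have hj2 : j % 2 = 0 := by
            have := hcon.1 (by omega)
            rw [Nat.not_odd_iff_even, Nat.even_iff] at this
            exact this
          refine ⟨_, _, hN ▸ pair_even hN2 h4 ?_ (by omega)⟩
          rw [hn', mul_assoc]; omega
        · have hj4 : 4 ∣ j := hcon.2 (by omega)
          refine ⟨_, _, hN ▸ pair_odd hN2 h4 ?_ (by omega)⟩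
          rw [hn']
          obtain ⟨r, hr⟩ : ∃ r, N = 2 * r + 1 := ⟨N / 2, by omega⟩
          rw [hr]
          have : 2 * (2 * r + 1) * (2 * r + 1) = 4 * (2 * r * r + 2 * r) + 2 := by ring
          omega
  · rintro (⟨h1, h2⟩ | ⟨j, h1, h2, h3, h4⟩)
    · refine ⟨h1, ?_⟩
      rintro ⟨a, b, h⟩
      rw [hN] at h
      have := packing hn h (by omega)
      omega
    · have hn' : n = 2 * N * N + j := by omega
      have hnt : t + 1 ≤ n := by
        have : 2 * N ≤ 2 * N * N := Nat.le_mul_of_pos_right _ (by omega)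
        omega
      refine ⟨hnt, ?_⟩
      rintro ⟨a, b, h⟩
      rw [hN] at h
      refine no_pair hN2 h2 (by omega) hn' ?_ a b h
      rcases h4 with ⟨h5, h6⟩ | ⟨h5, h6⟩
      · left; exact ⟨by omega, Nat.odd_iff.mp h6⟩
      · right; exact ⟨by omega, h6⟩

end Pool.Agent.Results.MP_c28122_co.Classification
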